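import Pool.Agent.U96.CX.Main

set_option autoImplicit false

/-!
# Chromatic index at least `k` is evasive for every number of vertices (MP_257582_lc)

Let `k ≥ 1` and let `P` be a monotone isomorphism-invariant property of graphs on `n` vertices, with
at least one member, such that

* every graph with a vertex of degree at least `k` has `P` and, if `n` is odd and `k ≥ 2`, every
  `(k - 1)`-regular graph has `P`,
* no graph with `P` has a proper edge colouring with `k - 1` colours.

Then `P` is evasive, for all `n` and `k`, in the form of the frozen statement of the problem. This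
applies to chromatic index at least `k`, i.e. not `(k - 1)`-edge-colourable (`chromatic_index`),
and for `n` even to all monotone properties between maximum degree at least `k` and chromatic
index at least `k`, e.g. to fractional (or circular) chromatic index at least `x`.

For `n` odd the membership of a regular graph is determined by its degree, because of Vizing's
theorem, and the theorem `RegularDegrees` applies. For `n` even it is not: there are regular (also
vertex-transitive) graphs of degree `k - 1` of class 1 and of class 2, e.g. the Petersen graph.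

Proof for `n` even, `k ≥ 2`. If `P` is not evasive, then the signed sum of its values over the Cayley
graphs of an abelian group `A` of order `n` (a `2`-group extended by a cyclic group) vanishes. By
Vizing's theorem the terms are known except for the connection sets `S` with `k - 1` elements. Class-1
lemma (`EC_class1`): if `S` contains an element outside some subgroup of index two, then the edges of
the Cayley graph can be coloured with `|S|` colours: colour the edges between even elements by
Vizing's theorem with one colour more than their degree, copy this colouring to the odd elements by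
a translation by an odd `s₀ ∈ S`, give the edge `{x, x + s₀}` the colour that is missing at `x`, and
give the other odd elements of `S` one own colour each. Now toggle a suitable involution `v` in the
connection set. All terms cancel but those of the sets `S` without `v` of size `k - 1` that are not
in `P`, and these all have the same sign: for `k` odd, `A = Z_n` and `v = n / 2`, since `S` is a union of
`(k - 1) / 2` pairs; for `k` even and `4 ∣ n`, `A = Z_2 × Z_(n/2)` and `v = (1, 0)`, since `S` contains
exactly one of the two other involutions. By the class-1 lemma there is at least one such `S`. For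
`k` even and `n ≡ 2 (mod 4)` every `S` with `k - 1` elements contains the involution, which is outside
the subgroup of index two, thus the membership is determined by the degree for the Cayley graphs of
`A`, and the wreath product argument of `RegularDegrees` applies.
-/

namespace Pool.Agent.Results.MP_257582_lc.ChromaticIndex

open Pool.Agent.U96.CX
open Pool.Q11.TwoEnd (EC)
open Pool.Q6.CI (colorable_iff_EC dg vizing)

/-- Every decision strategy `σ` (the next pair to be queried depends only on the answers to the
queries made so far) needs all `n.choose 2` queries: there are two graphs that agree on the first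
`n.choose 2 - 1` queried pairs, one with and one without `P`. -/
def Evasive {n : ℕ} (P : SimpleGraph (Fin n) → Prop) : Prop :=
  ∀ σ : Finset (Sym2 (Fin n)) → SimpleGraph (Fin n) → Sym2 (Fin n),
    (∀ (Q : Finset (Sym2 (Fin n))) (G H : SimpleGraph (Fin n)),
        (∀ e ∈ Q, (e ∈ G.edgeSet ↔ e ∈ H.edgeSet)) → σ Q G = σ Q H) →
    ∃ G H : SimpleGraph (Fin n),
      (∀ e ∈ (fun Q : Finset (Sym2 (Fin n)) => insert (σ Q G) Q)^[n.choose 2 - 1]
            (∅ : Finset (Sym2 (Fin n))),
          (e ∈ G.edgeSet ↔ e ∈ H.edgeSet)) ∧ P G ∧ ¬ P H

theorem evasive_of {n : ℕ} (P : SimpleGraph (Fin n) → Prop)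
    (hmono : ∀ G H : SimpleGraph (Fin n), G ≤ H → P G → P H)
    (hiso : ∀ (σ : Fin n ≃ Fin n) (G : SimpleGraph (Fin n)), P G → P (G.map σ.toEmbedding))
    (h : ¬ Pool.Agent.H119R2.Kp.GP n (n.choose 2 - 1) P) : Evasive P := by
  intro σ hσ
  by_contra hcon
  refine h ⟨hmono, hiso, Pool.Agent.H119R2.Kp.dec_of_strategy _ P σ hσ fun G H hGH hPG => ?_⟩
  by_contra hPH
  exact hcon ⟨G, H, hGH, hPG, hPH⟩

theorem dg_eq {n : ℕ} (G : SimpleGraph (Fin n)) (v : Fin n) :
    dg G v = (G.neighborSet v).ncard := by
  classical
  unfold dg
  rw [Set.ncard_eq_toFinset_card']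
  congr 1
  ext w
  simp

theorem EC_bot {n : ℕ} (k : ℕ) : EC (⊥ : SimpleGraph (Fin n)) k :=
  ⟨fun _ _ => 0, fun _ _ h => absurd h (by simp), fun _ _ _ => rfl,
    fun _ _ _ h => absurd h (by simp)⟩

theorem eq_bot_of_deg {n : ℕ} (G : SimpleGraph (Fin n)) (h : ∀ v, (G.neighborSet v).ncard = 0) :
    G = ⊥ := by
  ext u v
  constructor
  · intro h1
    have h4 := h u
    rw [Set.ncard_eq_zero (Set.toFinite _)] at h4
    have h5 : v ∈ G.neighborSet u := h1
    rw [h4] at h5
    exact absurd h5 (Set.notMem_empty v)
  · intro h1
    exact absurd h1 (by simp)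

/-- **Between maximum degree at least `k` and chromatic index at least `k`.** -/
theorem sandwich (n k : ℕ) (hk : 1 ≤ k) (P : SimpleGraph (Fin n) → Prop)
    (hmono : ∀ G H : SimpleGraph (Fin n), G ≤ H → P G → P H)
    (hiso : ∀ (σ : Fin n ≃ Fin n) (G : SimpleGraph (Fin n)), P G → P (G.map σ.toEmbedding))
    (hex : ∃ G : SimpleGraph (Fin n), P G)
    (hlow : ∀ G : SimpleGraph (Fin n), (∃ v, k ≤ (G.neighborSet v).ncard) → P G)
    (hodd : Odd n → 2 ≤ k → ∀ G : SimpleGraph (Fin n),
      (∀ v, (G.neighborSet v).ncard = k - 1) → P G)
    (hup : ∀ G : SimpleGraph (Fin n), P G → ¬ G.lineGraph.Colorable (k - 1)) : Evasive P := by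
  have hup' : ∀ G : SimpleGraph (Fin n), P G → ¬ EC G (k - 1) := fun G hG h =>
    hup G hG (colorable_iff_EC.2 h)
  have hn : 2 ≤ n := by
    by_contra hcon
    obtain ⟨G, hG⟩ := hex
    apply hup' G hG
    have : G = ⊥ := by
      ext u v
      have huv : u = v := by
        apply Fin.ext
        have := u.2
        have := v.2
        omega
      rw [huv]
      simp
    rw [this]
    exact EC_bot _
  have hbot : ¬ P ⊥ := fun h => hup' ⊥ h (EC_bot _)
  refine evasive_of P hmono hiso fun hGP => ?_
  by_cases hcase : Odd n ∨ k = 1
  · suffices hdd : Pool.Agent.W332.Kd.DD P by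
      obtain ⟨t, ht, hthr⟩ := Pool.Agent.W332.Kd.threshold hn hmono hex ⟨⊥, hbot⟩ hdd
      exact Pool.Agent.W332.Kd.no_GP hn hGP t ht hthr
    intro d G H _ _ hG hH
    have hz : ∀ G : SimpleGraph (Fin n), d + 2 ≤ k →
        (∀ v, (G.neighborSet v).ncard = d) → ¬ P G := by
      intro G hd hG h
      refine hup' G h (Pool.Q6.CI.EC.mono_right (vizing (k := d) fun v => ?_) (by omega))
      rw [dg_eq, hG v]
    rcases Nat.lt_or_ge d k with h1 | h1
    · rcases Nat.lt_or_ge (d + 1) k with h2 | h2
      · exact ⟨fun h => absurd h (hz G (by omega) hG), fun h => absurd h (hz H (by omega) hH)⟩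
      · have h3 : d = k - 1 := by omega
        rcases Nat.lt_or_ge k 2 with h4 | h4
        · have h5 : d = 0 := by omega
          rw [eq_bot_of_deg G (fun v => (hG v).trans h5), eq_bot_of_deg H (fun v => (hH v).trans h5)]
        · have hno : Odd n := hcase.resolve_right (by omega)
          exact ⟨fun _ => hodd hno h4 H fun v => (hH v).trans h3,
            fun _ => hodd hno h4 G fun v => (hG v).trans h3⟩
    · have h2 : ∀ G : SimpleGraph (Fin n), (∀ v, (G.neighborSet v).ncard = d) → P G := by
        intro G hG
        exact hlow G ⟨⟨0, by omega⟩, by rw [hG]; exact h1⟩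
      exact ⟨fun _ => h2 H hH, fun _ => h2 G hG⟩
  · push Not at hcase
    exact even_case (k := k) ⟨hGP, hlow, hup'⟩ hn (Nat.not_odd_iff_even.1 hcase.1)
      (by have := hcase.2; omega) hex

/-- **The chromatic index.** -/
theorem chromatic_index (n k : ℕ) (hk : 1 ≤ k)
    (hex : ∃ G : SimpleGraph (Fin n), ¬ G.lineGraph.Colorable (k - 1)) :
    Evasive fun G : SimpleGraph (Fin n) => ¬ G.lineGraph.Colorable (k - 1) := by
  refine sandwich n k hk _ ?_ ?_ hex ?_ ?_ fun G h => h
  · intro G H hGH hG h
    exact hG (colorable_iff_EC.2 ((colorable_iff_EC.1 h).mono hGH))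
  · intro σ G hG h
    apply hG
    rw [colorable_iff_EC] at h ⊢
    refine (EC_map h σ.symm).mono ?_
    intro x y hxy
    rw [SimpleGraph.map_adj]
    refine ⟨σ x, σ y, ?_, by simp, by simp⟩
    rw [SimpleGraph.map_adj]
    exact ⟨x, y, hxy, rfl, rfl⟩
  · rintro G ⟨v, hv⟩ h
    have h1 := Pool.Q6.CI.EC.dg_le (colorable_iff_EC.1 h) v
    rw [dg_eq] at h1
    omega
  · intro ho hk2 G hG h
    have h1 := Pool.Q6.CI.EC.sum_dg_le (colorable_iff_EC.1 h)
    rw [Finset.sum_congr rfl fun v _ => (dg_eq G v).trans (hG v), Finset.sum_const,
      Finset.card_univ, Fintype.card_fin, smul_eq_mul] at h1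
    obtain ⟨j, hj⟩ := ho
    have h2 : 2 * (n / 2) < n := by omega
    have h3 : (k - 1) * (2 * (n / 2)) < (k - 1) * n := Nat.mul_lt_mul_of_pos_left h2 (by omega)
    rw [mul_comm n] at h1
    omega

/-- **Chromatic index at least `k` is evasive for all `n` and `k`, and so is every monotone
property between maximum degree at least `k` and chromatic index at least `k` that, for `n` odd,
contains the `(k - 1)`-regular graphs.** -/
theorem result :
    (∀ n k : ℕ, 1 ≤ k → (∃ G : SimpleGraph (Fin n), ¬ G.lineGraph.Colorable (k - 1)) →
      Evasive fun G : SimpleGraph (Fin n) => ¬ G.lineGraph.Colorable (k - 1)) ∧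
    (∀ n k : ℕ, 1 ≤ k → ∀ P : SimpleGraph (Fin n) → Prop,
      (∀ G H : SimpleGraph (Fin n), G ≤ H → P G → P H) →
      (∀ (σ : Fin n ≃ Fin n) (G : SimpleGraph (Fin n)), P G → P (G.map σ.toEmbedding)) →
      (∃ G : SimpleGraph (Fin n), P G) →
      (∀ G : SimpleGraph (Fin n), (∃ v, k ≤ (G.neighborSet v).ncard) → P G) →
      (Odd n → 2 ≤ k → ∀ G : SimpleGraph (Fin n),
        (∀ v, (G.neighborSet v).ncard = k - 1) → P G) →
      (∀ G : SimpleGraph (Fin n), P G → ¬ G.lineGraph.Colorable (k - 1)) →
      Evasive P) :=
  ⟨chromatic_index, sandwich⟩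

end Pool.Agent.Results.MP_257582_lc.ChromaticIndex
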