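import Mathlib

set_option autoImplicit false

/-!
# Evasiveness from one-edge exchange, matroids and rigid frameworks (MP_257582_lc)

`n` is arbitrary (no prime power restriction), and the properties in (1)-(4) need not be monotone or
invariant under isomorphisms.

(1) *Exchange criterion.* Let `𝓑` be a non-empty family of graphs on `n` vertices and `F` a set of
pairs. Suppose that for every `B` in `𝓑` and every pair `e` outside `B` and `F` there is an edge `y` of
`B` such that `B - y + e` contains a member of `𝓑`. Then every property that holds for all `B` in `𝓑` and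
fails for all `B - y` (`y` an edge of `B`) has complexity at least `n.choose 2 - |F|`; it is evasive if
`F` is empty.

(2) *Matroids.* Let `M` be a matroid on the pairs without loops. Every property that holds for the
`M`-independent graphs with `r + 1` edges and fails for the `M`-independent graphs with `r` edges is
evasive. So all the properties `rank_M ≥ k` are evasive, and every monotone property between
`rank_M ≥ k` and `at least k edges`.

(3) The dual: if `M` has no coloops, every property that holds for the `M`-spanning graphs with `m + 1`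
edges and fails for those with `m` edges is evasive; for instance being `M`-dependent.

(4) *Frameworks.* For every `d` and every placement of `n ≥ 2` different points in `ℝ ^ d` (generic or
not) the infinitesimal rigidity of the framework is evasive. For generic placements this is the
rigidity of the graph in dimension `d`; `d = 1` is connectedness.

(5) *Number of edges.* Let `Q` be any non-empty monotone property each member of which contains a
member with fewer than `m ≤ n.choose 2` edges. Then `Q` together with `at least m edges` is evasive. So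
every non-empty monotone property agrees with an evasive one up to graphs with at most `M` edges, `M`
the largest number of edges of a minimal member; for instance being Hamiltonian and not a cycle is
evasive for all `n ≥ 4`.

Proof. The adversary answers yes only if otherwise no member of `𝓑` would survive. All its
yes-answers are edges of every surviving member. If some pair `e` outside `F` is not queried and a
surviving member `B` has been queried completely, then `B` is the set of the yes-answers, but the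
member inside `B - y + e` survives and does not contain `y`.
-/

namespace Pool.Agent.Results.MP_257582_lc.ExchangeCriterion

/-- `t` adaptive queries never suffice for the property `P` of graphs on `n` vertices, in the form of
the frozen statement of the problem: for every strategy `s` (the next pair to be queried depends
only on the answers to the queries `Q` made so far) there are two graphs that agree on the first `t`
queried pairs, one with and one without `P`. -/
def Undecided {n : ℕ} (t : ℕ) (P : SimpleGraph (Fin n) → Prop) : Prop :=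
  ∀ s : Finset (Sym2 (Fin n)) → SimpleGraph (Fin n) → Sym2 (Fin n),
    (∀ (Q : Finset (Sym2 (Fin n))) (G H : SimpleGraph (Fin n)),
        (∀ e ∈ Q, (e ∈ G.edgeSet ↔ e ∈ H.edgeSet)) → s Q G = s Q H) →
    ∃ G H : SimpleGraph (Fin n),
      (∀ e ∈ (fun Q : Finset (Sym2 (Fin n)) => insert (s Q G) Q)^[t]
            (∅ : Finset (Sym2 (Fin n))),
          (e ∈ G.edgeSet ↔ e ∈ H.edgeSet)) ∧ P G ∧ ¬ P H

/-- Every strategy needs all `n.choose 2` queries. -/
def Evasive {n : ℕ} (P : SimpleGraph (Fin n) → Prop) : Prop :=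
  Undecided (n.choose 2 - 1) P

section adversary

variable {n : ℕ}

/-- Some graph of the family has no queried pair except those answered with yes. -/
def Alive (𝓑 : Set (SimpleGraph (Fin n))) (Q Y : Finset (Sym2 (Fin n))) : Prop :=
  ∃ B ∈ 𝓑, ∀ f ∈ Q, f ∈ B.edgeSet → f ∈ Y

open Classical in
/-- The adversary: yes only if forced. -/
noncomputable def adv (𝓑 : Set (SimpleGraph (Fin n)))
    (s : Finset (Sym2 (Fin n)) → SimpleGraph (Fin n) → Sym2 (Fin n)) :
    ℕ → Finset (Sym2 (Fin n)) × Finset (Sym2 (Fin n))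
  | 0 => (∅, ∅)
  | t + 1 =>
      let Q := (adv 𝓑 s t).1
      let Y := (adv 𝓑 s t).2
      let e := s Q (SimpleGraph.fromEdgeSet (Y : Set (Sym2 (Fin n))))
      (insert e Q, if e ∈ Q ∨ e.IsDiag ∨ Alive 𝓑 (insert e Q) Y then Y else insert e Y)

/-- The invariant. -/
structure Inv (𝓑 : Set (SimpleGraph (Fin n))) (Q Y : Finset (Sym2 (Fin n))) : Prop where
  sub : Y ⊆ Q
  nd : ∀ f ∈ Y, ¬ f.IsDiag
  alive : Alive 𝓑 Q Y
  all : ∀ B ∈ 𝓑, (∀ f ∈ Q, f ∈ B.edgeSet → f ∈ Y) → ∀ f ∈ Y, f ∈ B.edgeSet

lemma inv_adv (𝓑 : Set (SimpleGraph (Fin n)))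
    (s : Finset (Sym2 (Fin n)) → SimpleGraph (Fin n) → Sym2 (Fin n)) (hne : 𝓑.Nonempty) (t : ℕ) :
    Inv 𝓑 (adv 𝓑 s t).1 (adv 𝓑 s t).2 := by
  classical
  induction t with
  | zero =>
      obtain ⟨B, hB⟩ := hne
      exact ⟨by simp [adv], by simp [adv], ⟨B, hB, by simp [adv]⟩, by simp [adv]⟩
  | succ t ih =>
      simp only [adv]
      generalize (adv 𝓑 s t).1 = Q at *
      generalize (adv 𝓑 s t).2 = Y at *
      generalize s Q (SimpleGraph.fromEdgeSet (Y : Set (Sym2 (Fin n)))) = e
      by_cases h : e ∈ Q ∨ e.IsDiag ∨ Alive 𝓑 (insert e Q) Y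
      · simp only [if_pos h]
        refine ⟨ih.sub.trans (Finset.subset_insert _ _), ih.nd, ?_, ?_⟩
        · rcases h with h | h | h
          · rw [Finset.insert_eq_of_mem h]; exact ih.alive
          · obtain ⟨B, hB, hB'⟩ := ih.alive
            refine ⟨B, hB, fun f hf hfB => ?_⟩
            rcases Finset.mem_insert.1 hf with rfl | hf
            · exact absurd h (B.not_isDiag_of_mem_edgeSet hfB)
            · exact hB' f hf hfB
          · exact h
        · exact fun B hB hB' => ih.all B hB fun f hf => hB' f (Finset.mem_insert_of_mem hf)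
      · simp only [if_neg h]
        push Not at h
        obtain ⟨heQ, hed, hna⟩ := h
        refine ⟨Finset.insert_subset_insert _ ih.sub, ?_, ?_, ?_⟩
        · intro f hf
          rcases Finset.mem_insert.1 hf with rfl | hf
          · exact hed
          · exact ih.nd f hf
        · obtain ⟨B, hB, hB'⟩ := ih.alive
          refine ⟨B, hB, fun f hf hfB => ?_⟩
          rcases Finset.mem_insert.1 hf with rfl | hf
          · exact Finset.mem_insert_self _ _
          · exact Finset.mem_insert_of_mem (hB' f hf hfB)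
        · intro B hB hB' f hf
          have h1 : ∀ f ∈ Q, f ∈ B.edgeSet → f ∈ Y := by
            intro g hg hgB
            rcases Finset.mem_insert.1 (hB' g (Finset.mem_insert_of_mem hg) hgB) with h | h
            · exact absurd (h ▸ hg) heQ
            · exact h
          rcases Finset.mem_insert.1 hf with rfl | hf
          · by_contra hfB
            refine hna ⟨B, hB, fun g hg hgB => ?_⟩
            rcases Finset.mem_insert.1 hg with rfl | hg
            · exact absurd hgB hfB
            · exact h1 g hg hgB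
          · exact ih.all B hB h1 f hf

lemma mem_fromEdgeSet_of (Y : Finset (Sym2 (Fin n))) (h : ∀ f ∈ Y, ¬ f.IsDiag)
    (f : Sym2 (Fin n)) :
    f ∈ (SimpleGraph.fromEdgeSet (Y : Set (Sym2 (Fin n)))).edgeSet ↔ f ∈ Y := by
  rw [SimpleGraph.edgeSet_fromEdgeSet]
  constructor
  · intro hf; simpa using hf.1
  · intro hf; exact ⟨by simpa using hf, h f hf⟩

lemma iter_eq (𝓑 : Set (SimpleGraph (Fin n)))
    (s : Finset (Sym2 (Fin n)) → SimpleGraph (Fin n) → Sym2 (Fin n))
    (hs : ∀ (Q : Finset (Sym2 (Fin n))) (G H : SimpleGraph (Fin n)),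
        (∀ e ∈ Q, (e ∈ G.edgeSet ↔ e ∈ H.edgeSet)) → s Q G = s Q H)
    (hne : 𝓑.Nonempty) (G : SimpleGraph (Fin n)) (t : ℕ)
    (hG : ∀ f ∈ (adv 𝓑 s t).1, (f ∈ G.edgeSet ↔ f ∈ (adv 𝓑 s t).2)) :
    (fun Q : Finset (Sym2 (Fin n)) => insert (s Q G) Q)^[t] (∅ : Finset (Sym2 (Fin n))) =
      (adv 𝓑 s t).1 := by
  classical
  induction t with
  | zero => simp [adv]
  | succ t ih =>
      have hi := inv_adv 𝓑 s hne t
      have key : ∀ f ∈ (adv 𝓑 s t).1, (f ∈ G.edgeSet ↔ f ∈ (adv 𝓑 s t).2) := by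
        intro f hf
        rw [hG f (by simp only [adv]; exact Finset.mem_insert_of_mem hf)]
        simp only [adv]
        split_ifs with h
        · rfl
        · push Not at h
          constructor
          · intro h'
            rcases Finset.mem_insert.1 h' with rfl | h'
            · exact absurd hf h.1
            · exact h'
          · exact fun h' => Finset.mem_insert_of_mem h'
      rw [Function.iterate_succ_apply', ih key]
      simp only [adv]
      congr 1
      apply hs
      intro f hf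
      rw [key f hf, mem_fromEdgeSet_of _ hi.nd]

lemma card_adv (𝓑 : Set (SimpleGraph (Fin n)))
    (s : Finset (Sym2 (Fin n)) → SimpleGraph (Fin n) → Sym2 (Fin n)) (t : ℕ) :
    (adv 𝓑 s t).1.card ≤ t := by
  classical
  induction t with
  | zero => simp [adv]
  | succ t ih =>
      simp only [adv]
      exact (Finset.card_insert_le _ _).trans (by omega)

/-- **The exchange criterion.** -/
theorem criterion (P : SimpleGraph (Fin n) → Prop) (𝓑 : Set (SimpleGraph (Fin n)))
    (F : Finset (Sym2 (Fin n))) (hne : 𝓑.Nonempty)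
    (hex : ∀ B ∈ 𝓑, ∀ e : Sym2 (Fin n), ¬ e.IsDiag → e ∉ B.edgeSet → e ∉ F →
      ∃ y ∈ B.edgeSet, ∃ B' ∈ 𝓑, B'.edgeSet ⊆ insert e (B.edgeSet \ {y}))
    (hP : ∀ B ∈ 𝓑, P B ∧ ∀ y ∈ B.edgeSet, ¬ P (B.deleteEdges {y}))
    (t : ℕ) (ht : t + F.card < n.choose 2) : Undecided t P := by
  classical
  intro s hs
  have hi := inv_adv 𝓑 s hne t
  have hc := card_adv 𝓑 s t
  have hiter := iter_eq 𝓑 s hs hne
  obtain ⟨Q, hQ⟩ : ∃ Q, Q = (adv 𝓑 s t).1 := ⟨_, rfl⟩
  obtain ⟨Y, hY⟩ : ∃ Y, Y = (adv 𝓑 s t).2 := ⟨_, rfl⟩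
  -- two graphs which agree with the answers
  have fin : ∀ G H : SimpleGraph (Fin n), (∀ f ∈ Q, (f ∈ G.edgeSet ↔ f ∈ Y)) →
      (∀ f ∈ Q, (f ∈ H.edgeSet ↔ f ∈ Y)) → P G → ¬ P H →
      ∃ G H : SimpleGraph (Fin n),
      (∀ e ∈ (fun Q : Finset (Sym2 (Fin n)) => insert (s Q G) Q)^[t]
            (∅ : Finset (Sym2 (Fin n))),
          (e ∈ G.edgeSet ↔ e ∈ H.edgeSet)) ∧ P G ∧ ¬ P H := by
    intro G H hG hH h1 h2
    refine ⟨G, H, ?_, h1, h2⟩
    rw [hiter G t (by rw [← hQ, ← hY]; exact hG), ← hQ]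
    intro f hf
    rw [hG f hf, hH f hf]
  rw [← hQ, ← hY] at hi
  rw [← hQ] at hc
  obtain ⟨B, hB, hBQ⟩ := hi.alive
  have hYB := hi.all B hB hBQ
  by_cases hcase : ∃ y ∈ B.edgeSet, y ∉ Q
  · obtain ⟨y, hyB, hyQ⟩ := hcase
    refine fin B (B.deleteEdges {y}) (fun f hf => ⟨hBQ f hf, hYB f⟩) ?_ (hP B hB).1
      ((hP B hB).2 y hyB)
    intro f hf
    rw [SimpleGraph.edgeSet_deleteEdges]
    constructor
    · intro h; exact hBQ f hf h.1
    · intro h
      refine ⟨hYB f h, ?_⟩
      rintro rfl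
      exact hyQ hf
  · exfalso
    push Not at hcase
    have hBY : ∀ f ∈ B.edgeSet, f ∈ Y := fun f hf => hBQ f (hcase f hf) hf
    -- a pair outside `Q` and `F`
    have hcard : (Finset.univ.filter fun e : Sym2 (Fin n) => ¬ e.IsDiag).card = n.choose 2 := by
      have := Sym2.card_subtype_not_diag (α := Fin n)
      rw [Fintype.card_fin] at this
      rw [← this, Fintype.card_subtype]
    obtain ⟨e, he, heQF⟩ : ∃ e ∈ (Finset.univ.filter fun e : Sym2 (Fin n) => ¬ e.IsDiag),
        e ∉ Q ∪ F := by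
      by_contra hcon
      push Not at hcon
      have h1 := Finset.card_le_card hcon
      have h2 := Finset.card_union_le Q F
      rw [hcard] at h1
      omega
    rw [Finset.mem_union, not_or] at heQF
    have hed : ¬ e.IsDiag := (Finset.mem_filter.1 he).2
    have heB : e ∉ B.edgeSet := fun h => heQF.1 (hcase e h)
    obtain ⟨y, hy, B', hB', hsub⟩ := hex B hB e hed heB heQF.2
    have h1 : ∀ f ∈ Q, f ∈ B'.edgeSet → f ∈ Y := by
      intro f hf hfB'
      rcases hsub hfB' with rfl | h
      · exact absurd hf heQF.1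
      · exact hBY f h.1
    have h2 := hi.all B' hB' h1 y (hBY y hy)
    rcases hsub h2 with rfl | h
    · exact heB hy
    · exact h.2 rfl

end adversary

section applications

variable {n : ℕ}

lemma undecided_nil_pos {P : SimpleGraph (Fin n) → Prop} {t : ℕ}
    (𝓑 : Set (SimpleGraph (Fin n))) (hne : 𝓑.Nonempty)
    (hex : ∀ B ∈ 𝓑, ∀ e : Sym2 (Fin n), ¬ e.IsDiag → e ∉ B.edgeSet →
      ∃ y ∈ B.edgeSet, ∃ B' ∈ 𝓑, B'.edgeSet ⊆ insert e (B.edgeSet \ {y}))
    (hP : ∀ B ∈ 𝓑, P B ∧ ∀ y ∈ B.edgeSet, ¬ P (B.deleteEdges {y}))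
    (ht : t < n.choose 2) : Undecided t P :=
  criterion P 𝓑 ∅ hne (fun B hB e h1 h2 _ => hex B hB e h1 h2) hP t (by simpa using ht)

lemma edgeSet_ncard_le (G : SimpleGraph (Fin n)) : G.edgeSet.ncard ≤ n.choose 2 := by
  classical
  have h1 : G.edgeSet ⊆ ((Finset.univ.filter fun e : Sym2 (Fin n) => ¬ e.IsDiag :
      Finset (Sym2 (Fin n))) : Set (Sym2 (Fin n))) := by
    intro e he
    simpa using G.not_isDiag_of_mem_edgeSet he
  have h2 := Set.ncard_le_ncard h1 (Finset.finite_toSet _)
  rw [Set.ncard_coe_finset] at h2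
  have h3 := Sym2.card_subtype_not_diag (α := Fin n)
  rw [Fintype.card_fin] at h3
  rwa [← h3, Fintype.card_subtype]

lemma edgeSet_fes {S : Set (Sym2 (Fin n))} (h : ∀ e ∈ S, ¬ e.IsDiag) :
    (SimpleGraph.fromEdgeSet S).edgeSet = S := by
  rw [SimpleGraph.edgeSet_fromEdgeSet]
  ext e
  exact ⟨fun he => he.1, fun he => ⟨he, h e he⟩⟩

/-- Exchange in a loopless matroid. -/
lemma exch_matroid (M : Matroid (Sym2 (Fin n))) {e : Sym2 (Fin n)} (hl : M.Indep {e})
    {B : Set (Sym2 (Fin n))} (hB : M.Indep B) {r : ℕ} (hr : B.ncard = r + 1) (he : e ∉ B) :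
    ∃ y ∈ B, ∃ B', M.Indep B' ∧ B'.ncard = r + 1 ∧ B' ⊆ insert e (B \ {y}) := by
  classical
  have hBf : B.Finite := Set.toFinite B
  by_cases h : M.Indep (insert e B)
  · obtain ⟨y, hy⟩ : B.Nonempty := by
      rw [Set.nonempty_iff_ne_empty]; rintro rfl; simp at hr
    refine ⟨y, hy, insert e (B \ {y}), h.subset ?_, ?_, subset_rfl⟩
    · exact Set.insert_subset_insert Set.sdiff_subset
    · rw [Set.ncard_insert_of_notMem (fun h' => he h'.1), Set.ncard_sdiff_singleton_of_mem hy, hr]
      omega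
  · have hE : insert e B ⊆ M.E := by
      intro x hx
      rcases hx with rfl | hx
      · exact hl.subset_ground rfl
      · exact hB.subset_ground hx
    obtain ⟨J, hJ, heJ⟩ := hl.subset_isBasis_of_subset
      (show ({e} : Set (Sym2 (Fin n))) ⊆ insert e B by simp) hE
    have hJle : r + 1 ≤ J.ncard := by
      by_contra hlt
      push Not at hlt
      rw [← hr] at hlt
      have hlt' : J.encard < B.encard := by
        rw [← Set.Finite.cast_ncard_eq (Set.toFinite J), ← Set.Finite.cast_ncard_eq hBf]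
        exact_mod_cast hlt
      obtain ⟨x, hx, hxJ⟩ := hJ.indep.augment hB hlt'
      exact hx.2 (hJ.mem_of_insert_indep (Set.mem_insert_of_mem _ hx.1) hxJ)
    have hne : J ≠ insert e B := fun h' => h (h' ▸ hJ.indep)
    obtain ⟨y, hy, hyJ⟩ : ∃ y ∈ insert e B, y ∉ J := by
      by_contra hcon
      push Not at hcon
      exact hne (Set.Subset.antisymm hJ.subset hcon)
    have hye : y ≠ e := fun h' => hyJ (h' ▸ heJ rfl)
    have hyB : y ∈ B := hy.resolve_left hye
    have hsub : J ⊆ insert e (B \ {y}) := by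
      intro x hx
      rcases hJ.subset hx with rfl | hx'
      · exact Set.mem_insert _ _
      · exact Set.mem_insert_of_mem _ ⟨hx', fun h' => hyJ (h' ▸ hx)⟩
    have hJge : J.ncard ≤ r + 1 := by
      have h1 := Set.ncard_le_ncard hsub (Set.toFinite _)
      rw [Set.ncard_insert_of_notMem (fun h' => he h'.1), Set.ncard_sdiff_singleton_of_mem hyB,
        hr] at h1
      omega
    exact ⟨y, hyB, J, hJ.indep, le_antisymm hJge hJle, hsub⟩

/-- **Loopless matroids.** -/
theorem matroid_evasive (M : Matroid (Sym2 (Fin n)))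
    (hl : ∀ e : Sym2 (Fin n), ¬ e.IsDiag → M.Indep {e}) (r : ℕ)
    (hr : ∃ G : SimpleGraph (Fin n), M.Indep G.edgeSet ∧ G.edgeSet.ncard = r + 1)
    (P : SimpleGraph (Fin n) → Prop)
    (hP1 : ∀ G, M.Indep G.edgeSet → G.edgeSet.ncard = r + 1 → P G)
    (hP0 : ∀ G, M.Indep G.edgeSet → G.edgeSet.ncard = r → ¬ P G) : Evasive P := by
  classical
  obtain ⟨G₀, h0, h0'⟩ := hr
  have hpos : 0 < n.choose 2 := by
    have := edgeSet_ncard_le G₀
    omega
  refine undecided_nil_pos {B | M.Indep B.edgeSet ∧ B.edgeSet.ncard = r + 1} ⟨G₀, h0, h0'⟩ ?_ ?_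
    (by omega)
  · rintro B ⟨hB, hBr⟩ e hed heB
    obtain ⟨y, hy, B', hB', hr', hsub⟩ := exch_matroid M (hl e hed) hB hBr heB
    have hnd : ∀ f ∈ B', ¬ f.IsDiag := by
      intro f hf
      rcases hsub hf with rfl | h
      · exact hed
      · exact B.not_isDiag_of_mem_edgeSet h.1
    refine ⟨y, hy, SimpleGraph.fromEdgeSet B', ⟨?_, ?_⟩, ?_⟩
    · rw [edgeSet_fes hnd]; exact hB'
    · rw [edgeSet_fes hnd]; exact hr'
    · rw [edgeSet_fes hnd]; exact hsub
  · rintro B ⟨hB, hBr⟩
    refine ⟨hP1 B hB hBr, fun y hy => hP0 _ ?_ ?_⟩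
    · rw [SimpleGraph.edgeSet_deleteEdges]
      exact hB.subset Set.sdiff_subset
    · rw [SimpleGraph.edgeSet_deleteEdges, Set.ncard_sdiff_singleton_of_mem hy, hBr]
      omega

/-- **Spanning systems of vectors.** -/
theorem span_evasive {K W : Type*} [Field K] [AddCommGroup W] [Module K W]
    (v : Sym2 (Fin n) → W) (hv : ∀ e : Sym2 (Fin n), ¬ e.IsDiag → v e ≠ 0) (hn : 2 ≤ n) :
    Evasive fun G : SimpleGraph (Fin n) =>
      ∀ e : Sym2 (Fin n), ¬ e.IsDiag → v e ∈ Submodule.span K (v '' G.edgeSet) := by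
  classical
  have hpos : 0 < n.choose 2 := Nat.choose_pos hn
  refine undecided_nil_pos {B | LinearIndepOn K v B.edgeSet ∧
    ∀ e : Sym2 (Fin n), ¬ e.IsDiag → v e ∈ Submodule.span K (v '' B.edgeSet)} ?_ ?_ ?_
    (by omega)
  · obtain ⟨b, hb, -, hspan, hind⟩ := exists_linearIndepOn_extension
      (linearIndepOn_empty K v) (Set.empty_subset {e : Sym2 (Fin n) | ¬ e.IsDiag})
    have h1 : (SimpleGraph.fromEdgeSet b).edgeSet = b := edgeSet_fes fun e he => hb he
    refine ⟨SimpleGraph.fromEdgeSet b, ?_, ?_⟩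
    · rw [h1]; exact hind
    · rw [h1]; exact fun e he => hspan ⟨e, he, rfl⟩
  · rintro B ⟨hB, hBs⟩ e hed heB
    obtain ⟨b, hb, heb, hspan, hind⟩ := exists_linearIndepOn_extension
      (LinearIndepOn.singleton (hv e hed) : LinearIndepOn K v {e})
      (show ({e} : Set (Sym2 (Fin n))) ⊆ insert e B.edgeSet by simp)
    have hne : ∃ y ∈ B.edgeSet, y ∉ b := by
      by_contra hcon
      push Not at hcon
      have h1 : insert e B.edgeSet ⊆ b := Set.insert_subset (heb rfl) hcon
      have h2 := (linearIndepOn_insert heB).1 (hind.mono h1)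
      exact h2.2 (hBs e hed)
    obtain ⟨y, hy, hyb⟩ := hne
    have hsub : b ⊆ insert e (B.edgeSet \ {y}) := by
      intro x hx
      rcases hb hx with rfl | hx'
      · exact Set.mem_insert _ _
      · exact Set.mem_insert_of_mem _ ⟨hx', fun h' => hyb (h' ▸ hx)⟩
    have hnd : ∀ f ∈ b, ¬ f.IsDiag := by
      intro f hf
      rcases hsub hf with rfl | h
      · exact hed
      · exact B.not_isDiag_of_mem_edgeSet h.1
    refine ⟨y, hy, SimpleGraph.fromEdgeSet b, ⟨?_, ?_⟩, ?_⟩
    · rw [edgeSet_fes hnd]; exact hind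
    · rw [edgeSet_fes hnd]
      intro f hf
      have h3 : Submodule.span K (v '' B.edgeSet) ≤ Submodule.span K (v '' b) := by
        rw [Submodule.span_le]
        rintro _ ⟨g, hg, rfl⟩
        exact hspan ⟨g, Set.mem_insert_of_mem _ hg, rfl⟩
      exact h3 (hBs f hf)
    · rw [edgeSet_fes hnd]; exact hsub
  · rintro B ⟨hB, hBs⟩
    refine ⟨hBs, fun y hy hcon => ?_⟩
    have h1 := hcon y (B.not_isDiag_of_mem_edgeSet hy)
    rw [SimpleGraph.edgeSet_deleteEdges] at h1
    have h2 : B.edgeSet = insert y (B.edgeSet \ {y}) := by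
      rw [Set.insert_sdiff_singleton, Set.insert_eq_of_mem hy]
    rw [h2] at hB
    exact ((linearIndepOn_insert (by simp)).1 hB).2 h1

/-- **Adding a condition on the number of edges.** -/
theorem edges_evasive (Q : SimpleGraph (Fin n) → Prop)
    (hmon : ∀ G H : SimpleGraph (Fin n), G ≤ H → Q G → Q H) (hne : ∃ G, Q G) (m : ℕ)
    (hm : m ≤ n.choose 2)
    (hmin : ∀ G, Q G → ∃ H ≤ G, Q H ∧ H.edgeSet.ncard < m) :
    Evasive fun G : SimpleGraph (Fin n) => Q G ∧ m ≤ G.edgeSet.ncard := by
  classical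
  have hm0 : 0 < m := by
    obtain ⟨G, hG⟩ := hne
    obtain ⟨H, -, -, h⟩ := hmin G hG
    omega
  refine undecided_nil_pos {B | Q B ∧ B.edgeSet.ncard = m} ?_ ?_ ?_ (by omega)
  · obtain ⟨G, hG⟩ := hne
    obtain ⟨H, -, hQH, hH⟩ := hmin G hG
    have htop : (⊤ : SimpleGraph (Fin n)).edgeSet.ncard = n.choose 2 := by
      rw [Set.ncard_eq_toFinset_card', ← SimpleGraph.edgeFinset,
        SimpleGraph.card_edgeFinset_top_eq_card_choose_two, Fintype.card_fin]
    obtain ⟨S, hS1, hS2, hS3⟩ := Set.exists_subsuperset_card_eq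
      (SimpleGraph.edgeSet_mono (le_top : H ≤ ⊤)) hH.le (by rw [htop]; exact hm)
    have h1 : (SimpleGraph.fromEdgeSet S).edgeSet = S :=
      edgeSet_fes fun e he => (⊤ : SimpleGraph (Fin n)).not_isDiag_of_mem_edgeSet (hS2 he)
    refine ⟨SimpleGraph.fromEdgeSet S, hmon H _ ?_ hQH, ?_⟩
    · rw [← SimpleGraph.edgeSet_subset_edgeSet, h1]; exact hS1
    · rw [h1]; exact hS3
  · rintro B ⟨hB, hBm⟩ e hed heB
    obtain ⟨H, hHB, hQH, hH⟩ := hmin B hB
    have hHB' := SimpleGraph.edgeSet_subset_edgeSet.2 hHB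
    obtain ⟨y, hy, hyH⟩ : ∃ y ∈ B.edgeSet, y ∉ H.edgeSet := by
      by_contra hcon
      push Not at hcon
      have := Set.ncard_le_ncard (show B.edgeSet ⊆ H.edgeSet from hcon) (Set.toFinite _)
      omega
    have hnd : ∀ f ∈ insert e (B.edgeSet \ {y}), ¬ f.IsDiag := by
      intro f hf
      rcases hf with rfl | h
      · exact hed
      · exact B.not_isDiag_of_mem_edgeSet h.1
    refine ⟨y, hy, SimpleGraph.fromEdgeSet (insert e (B.edgeSet \ {y})), ⟨?_, ?_⟩, ?_⟩
    · refine hmon H _ ?_ hQH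
      rw [← SimpleGraph.edgeSet_subset_edgeSet, edgeSet_fes hnd]
      exact fun f hf => Set.mem_insert_of_mem _ ⟨hHB' hf, fun h => hyH (h ▸ hf)⟩
    · rw [edgeSet_fes hnd, Set.ncard_insert_of_notMem (fun h' => heB h'.1),
        Set.ncard_sdiff_singleton_of_mem hy, hBm]
      omega
    · rw [edgeSet_fes hnd]
  · rintro B ⟨hB, hBm⟩
    refine ⟨⟨hB, hBm.ge⟩, fun y hy hcon => ?_⟩
    have h2 := hcon.2
    rw [SimpleGraph.edgeSet_deleteEdges, Set.ncard_sdiff_singleton_of_mem hy, hBm] at h2
    omega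

/-- The length form of a framework: `u` moves the points, the value is half of the derivative of the
squared distance of the points `i` and `j`. -/
def stretch {d : ℕ} (p : Fin n → Fin d → ℝ) (i j : Fin n) :
    (Fin n → Fin d → ℝ) →ₗ[ℝ] ℝ where
  toFun u := ∑ k, (p i k - p j k) * (u i k - u j k)
  map_add' u w := by
    rw [← Finset.sum_add_distrib]
    exact Finset.sum_congr rfl fun k _ => by simp only [Pi.add_apply]; ring
  map_smul' c u := by
    simp only [Pi.smul_apply, smul_eq_mul, RingHom.id_apply]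
    rw [Finset.mul_sum]
    exact Finset.sum_congr rfl fun k _ => by ring

lemma stretch_symm {d : ℕ} (p : Fin n → Fin d → ℝ) (i j : Fin n) :
    stretch p i j = stretch p j i := by
  refine LinearMap.ext fun u => ?_
  change ∑ k, (p i k - p j k) * (u i k - u j k) = ∑ k, (p j k - p i k) * (u j k - u i k)
  exact Finset.sum_congr rfl fun k _ => by ring

/-- The same for unordered pairs. -/
def row {d : ℕ} (p : Fin n → Fin d → ℝ) (e : Sym2 (Fin n)) : (Fin n → Fin d → ℝ) →ₗ[ℝ] ℝ :=
  Sym2.lift ⟨fun i j => stretch p i j, fun i j => stretch_symm p i j⟩ e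

/-- The framework `(G, p)` is infinitesimally rigid: if the velocities `u` preserve the lengths of
the edges of `G` to first order, then they preserve all distances to first order. -/
def InfinitesimallyRigid {d : ℕ} (p : Fin n → Fin d → ℝ) (G : SimpleGraph (Fin n)) : Prop :=
  ∀ u : Fin n → Fin d → ℝ,
    (∀ i j, G.Adj i j → ∑ k, (p i k - p j k) * (u i k - u j k) = 0) →
    ∀ i j, ∑ k, (p i k - p j k) * (u i k - u j k) = 0

lemma row_ne {d : ℕ} (p : Fin n → Fin d → ℝ) (hp : Function.Injective p) (e : Sym2 (Fin n))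
    (he : ¬ e.IsDiag) : row p e ≠ 0 := by
  induction e using Sym2.ind with
  | _ i j =>
    rw [Sym2.mk_isDiag_iff] at he
    intro h
    have h1 : stretch p i j (fun l k => if l = i then p i k - p j k else 0) = 0 := by
      have : row p s(i, j) = stretch p i j := rfl
      rw [← this, h]; rfl
    have h2 : ∑ k, (p i k - p j k) * (p i k - p j k) = 0 := by
      have h3 : stretch p i j (fun l k => if l = i then p i k - p j k else 0) =
          ∑ k, (p i k - p j k) * (p i k - p j k) := by
        change ∑ k, (p i k - p j k) * ((if i = i then p i k - p j k else 0) -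
          (if j = i then p i k - p j k else 0)) = _
        refine Finset.sum_congr rfl fun k _ => ?_
        rw [if_pos rfl, if_neg (fun h => he h.symm), sub_zero]
      rw [← h3]; exact h1
    apply he
    apply hp
    ext k
    have h4 := (Finset.sum_eq_zero_iff_of_nonneg
      (fun k _ => mul_self_nonneg (p i k - p j k))).1 h2 k (Finset.mem_univ k)
    have h5 := mul_self_eq_zero.1 h4
    linarith

lemma rigid_iff {d : ℕ} (p : Fin n → Fin d → ℝ) (G : SimpleGraph (Fin n)) :
    InfinitesimallyRigid p G ↔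
      ∀ e : Sym2 (Fin n), ¬ e.IsDiag → row p e ∈ Submodule.span ℝ (row p '' G.edgeSet) := by
  classical
  constructor
  · intro h e he
    have hr : row p '' G.edgeSet = Set.range fun f : G.edgeSet => row p f.1 := by
      ext x; simp
    rw [hr]
    refine mem_span_of_iInf_ker_le_ker fun u hu => ?_
    rw [Submodule.mem_iInf] at hu
    have h1 := h u fun i j hij => by
      have := hu ⟨s(i, j), hij⟩
      rw [LinearMap.mem_ker] at this
      exact this
    rw [LinearMap.mem_ker]
    induction e using Sym2.ind with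
    | _ i j => exact h1 i j
  · intro h u hu i j
    by_cases hij : i = j
    · subst hij; simp
    have h1 := h s(i, j) (by rwa [Sym2.mk_isDiag_iff])
    have h2 : ∀ φ ∈ Submodule.span ℝ (row p '' G.edgeSet), φ u = 0 := by
      intro φ hφ
      induction hφ using Submodule.span_induction with
      | mem x hx =>
        obtain ⟨f, hf, rfl⟩ := hx
        induction f using Sym2.ind with
        | _ a b => exact hu a b hf
      | zero => rfl
      | add x y _ _ hx hy => rw [LinearMap.add_apply, hx, hy, add_zero]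
      | smul a x _ hx => rw [LinearMap.smul_apply, hx, smul_zero]
    exact h2 _ h1

theorem rigid_evasive {d : ℕ} (p : Fin n → Fin d → ℝ) (hp : Function.Injective p) (hn : 2 ≤ n) :
    Evasive (InfinitesimallyRigid p) := by
  have h := span_evasive (K := ℝ) (row p) (row_ne p hp) hn
  have h2 : InfinitesimallyRigid p = fun G : SimpleGraph (Fin n) =>
      ∀ e : Sym2 (Fin n), ¬ e.IsDiag → row p e ∈ Submodule.span ℝ (row p '' G.edgeSet) := by
    funext G
    exact propext (rigid_iff p G)
  rw [h2]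
  exact h

lemma iter_congr (s : Finset (Sym2 (Fin n)) → SimpleGraph (Fin n) → Sym2 (Fin n))
    (hs : ∀ (Q : Finset (Sym2 (Fin n))) (G H : SimpleGraph (Fin n)),
        (∀ e ∈ Q, (e ∈ G.edgeSet ↔ e ∈ H.edgeSet)) → s Q G = s Q H)
    (G H : SimpleGraph (Fin n)) (t : ℕ)
    (h : ∀ e ∈ (fun Q : Finset (Sym2 (Fin n)) => insert (s Q G) Q)^[t]
            (∅ : Finset (Sym2 (Fin n))), (e ∈ G.edgeSet ↔ e ∈ H.edgeSet)) :
    (fun Q : Finset (Sym2 (Fin n)) => insert (s Q H) Q)^[t] (∅ : Finset (Sym2 (Fin n))) =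
      (fun Q : Finset (Sym2 (Fin n)) => insert (s Q G) Q)^[t] (∅ : Finset (Sym2 (Fin n))) := by
  induction t with
  | zero => rfl
  | succ t ih =>
    rw [Function.iterate_succ_apply'] at h ⊢
    rw [Function.iterate_succ_apply']
    have h' := fun e he => h e (Finset.mem_insert_of_mem he)
    rw [ih h']
    congr 1
    exact (hs _ G H h').symm

lemma mem_compl_edgeSet (G : SimpleGraph (Fin n)) (e : Sym2 (Fin n)) :
    e ∈ Gᶜ.edgeSet ↔ ¬ e.IsDiag ∧ e ∉ G.edgeSet := by
  induction e using Sym2.ind with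
  | _ a b => simp [SimpleGraph.compl_adj]

/-- Passing to complements. -/
theorem undecided_compl {P : SimpleGraph (Fin n) → Prop} {t : ℕ}
    (h : Undecided t fun G => ¬ P Gᶜ) : Undecided t P := by
  intro s hs
  obtain ⟨G, H, hGH, hG, hH⟩ := h (fun Q G => s Q Gᶜ) fun Q G H hGH => hs Q _ _ fun e he => by
    rw [mem_compl_edgeSet, mem_compl_edgeSet, hGH e he]
  have h1 : ∀ e ∈ (fun Q : Finset (Sym2 (Fin n)) => insert (s Q Gᶜ) Q)^[t]
      (∅ : Finset (Sym2 (Fin n))), (e ∈ Gᶜ.edgeSet ↔ e ∈ Hᶜ.edgeSet) := by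
    intro e he
    rw [mem_compl_edgeSet, mem_compl_edgeSet, hGH e he]
  refine ⟨Hᶜ, Gᶜ, ?_, not_not.1 hH, hG⟩
  rw [iter_congr s hs Gᶜ Hᶜ t h1]
  exact fun e he => (h1 e he).symm

lemma compl_ncard (G : SimpleGraph (Fin n)) :
    Gᶜ.edgeSet.ncard + G.edgeSet.ncard = n.choose 2 := by
  classical
  have h1 : Gᶜ.edgeSet ∪ G.edgeSet = ((Finset.univ.filter fun e : Sym2 (Fin n) => ¬ e.IsDiag :
      Finset (Sym2 (Fin n))) : Set (Sym2 (Fin n))) := by
    ext e
    simp only [Set.mem_union, mem_compl_edgeSet, Finset.coe_filter, Finset.mem_univ, true_and,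
      Set.mem_ofPred_eq]
    constructor
    · rintro (h | h)
      · exact h.1
      · exact G.not_isDiag_of_mem_edgeSet h
    · intro h
      by_cases h' : e ∈ G.edgeSet
      · exact Or.inr h'
      · exact Or.inl ⟨h, h'⟩
  have h2 : Disjoint Gᶜ.edgeSet G.edgeSet := by
    rw [Set.disjoint_left]
    intro e he he'
    exact ((mem_compl_edgeSet G e).1 he).2 he'
  rw [← Set.ncard_union_eq h2 (Set.toFinite _) (Set.toFinite _), h1, Set.ncard_coe_finset]
  have h3 := Sym2.card_subtype_not_diag (α := Fin n)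
  rw [Fintype.card_fin] at h3
  rw [← h3, Fintype.card_subtype]

/-- **Matroids without coloops.** -/
theorem matroid_evasive_dual (M : Matroid (Sym2 (Fin n))) (hE : M.E = {e | ¬ e.IsDiag})
    (hc : ∀ e : Sym2 (Fin n), ¬ e.IsDiag → M.Spanning (M.E \ {e})) (m : ℕ)
    (hm : m < n.choose 2)
    (hr : ∃ G : SimpleGraph (Fin n), M.Spanning G.edgeSet ∧ G.edgeSet.ncard = m)
    (P : SimpleGraph (Fin n) → Prop)
    (hP1 : ∀ G, M.Spanning G.edgeSet → G.edgeSet.ncard = m + 1 → P G)
    (hP0 : ∀ G, M.Spanning G.edgeSet → G.edgeSet.ncard = m → ¬ P G) : Evasive P := by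
  classical
  have key : ∀ G : SimpleGraph (Fin n), M.Spanning Gᶜ.edgeSet ↔ M✶.Indep G.edgeSet := by
    intro G
    have h1 : Gᶜ.edgeSet ⊆ M.E := by
      rw [hE]; exact fun e he => ((mem_compl_edgeSet G e).1 he).1
    have h2 : M.E \ Gᶜ.edgeSet = G.edgeSet := by
      rw [hE]
      ext e
      rw [Set.mem_sdiff, mem_compl_edgeSet, Set.mem_ofPred_eq]
      constructor
      · intro h
        by_contra h'
        exact h.2 ⟨h.1, h'⟩
      · exact fun h => ⟨G.not_isDiag_of_mem_edgeSet h, fun h' => h'.2 h⟩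
    rw [Matroid.spanning_iff_compl_coindep h1, h2]
  have key' : ∀ G : SimpleGraph (Fin n), M.Spanning G.edgeSet ↔ M✶.Indep Gᶜ.edgeSet := by
    intro G
    rw [← key, compl_compl]
  apply undecided_compl
  obtain ⟨G₀, hG₀, hG₀'⟩ := hr
  have hn := compl_ncard G₀
  refine matroid_evasive M✶ ?_ (n.choose 2 - m - 1) ⟨G₀ᶜ, (key' G₀).1 hG₀, by omega⟩ _ ?_ ?_
  · intro e he
    have h1 : M.Coindep (M.E \ (M.E \ {e})) :=
      (Matroid.spanning_iff_compl_coindep Set.sdiff_subset).1 (hc e he)
    have h2 : M.E \ (M.E \ {e}) = {e} := by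
      rw [Set.sdiff_sdiff_cancel_left]
      rw [hE]
      exact Set.singleton_subset_iff.2 he
    rw [h2] at h1
    exact h1
  · intro G hG hGm
    have := compl_ncard G
    exact hP0 _ ((key G).2 hG) (by omega)
  · intro G hG hGm
    have := compl_ncard G
    exact not_not.2 (hP1 _ ((key G).2 hG) (by omega))

end applications

/-- **The exchange criterion for evasiveness, and its instances.** -/
theorem result :
    (∀ (n : ℕ) (P : SimpleGraph (Fin n) → Prop) (𝓑 : Set (SimpleGraph (Fin n)))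
        (F : Finset (Sym2 (Fin n))), 𝓑.Nonempty →
      (∀ B ∈ 𝓑, ∀ e : Sym2 (Fin n), ¬ e.IsDiag → e ∉ B.edgeSet → e ∉ F →
        ∃ y ∈ B.edgeSet, ∃ B' ∈ 𝓑, B'.edgeSet ⊆ insert e (B.edgeSet \ {y})) →
      (∀ B ∈ 𝓑, P B ∧ ∀ y ∈ B.edgeSet, ¬ P (B.deleteEdges {y})) →
      ∀ t, t + F.card < n.choose 2 → Undecided t P) ∧
    (∀ (n : ℕ) (M : Matroid (Sym2 (Fin n))), (∀ e : Sym2 (Fin n), ¬ e.IsDiag → M.Indep {e}) →
      ∀ r : ℕ, (∃ G : SimpleGraph (Fin n), M.Indep G.edgeSet ∧ G.edgeSet.ncard = r + 1) →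
      ∀ P : SimpleGraph (Fin n) → Prop,
      (∀ G, M.Indep G.edgeSet → G.edgeSet.ncard = r + 1 → P G) →
      (∀ G, M.Indep G.edgeSet → G.edgeSet.ncard = r → ¬ P G) → Evasive P) ∧
    (∀ (n : ℕ) (M : Matroid (Sym2 (Fin n))), M.E = {e | ¬ e.IsDiag} →
      (∀ e : Sym2 (Fin n), ¬ e.IsDiag → M.Spanning (M.E \ {e})) →
      ∀ m < n.choose 2,
      (∃ G : SimpleGraph (Fin n), M.Spanning G.edgeSet ∧ G.edgeSet.ncard = m) →
      ∀ P : SimpleGraph (Fin n) → Prop,
      (∀ G, M.Spanning G.edgeSet → G.edgeSet.ncard = m + 1 → P G) →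
      (∀ G, M.Spanning G.edgeSet → G.edgeSet.ncard = m → ¬ P G) → Evasive P) ∧
    (∀ n d : ℕ, 2 ≤ n → ∀ p : Fin n → Fin d → ℝ, Function.Injective p →
      Evasive (InfinitesimallyRigid p)) ∧
    (∀ (n : ℕ) (Q : SimpleGraph (Fin n) → Prop),
      (∀ G H : SimpleGraph (Fin n), G ≤ H → Q G → Q H) → (∃ G, Q G) →
      ∀ m ≤ n.choose 2, (∀ G, Q G → ∃ H ≤ G, Q H ∧ H.edgeSet.ncard < m) →
      Evasive fun G : SimpleGraph (Fin n) => Q G ∧ m ≤ G.edgeSet.ncard) :=
  ⟨fun _ P 𝓑 F h1 h2 h3 t ht => criterion P 𝓑 F h1 h2 h3 t ht,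
    fun _ M hl r hr P h1 h0 => matroid_evasive M hl r hr P h1 h0,
    fun _ M hE hc m hm hr P h1 h0 => matroid_evasive_dual M hE hc m hm hr P h1 h0,
    fun _ _ hn p hp => rigid_evasive p hp hn,
    fun _ Q hmon hne m hm hmin => edges_evasive Q hmon hne m hm hmin⟩

end Pool.Agent.Results.MP_257582_lc.ExchangeCriterion
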