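import Pool.Agent.U291.KE.Final

set_option autoImplicit false

/-!
# Fixed subgraphs of arbitrary chromatic number: evasive for all large `n` (MP_257582_lc)

Let `𝓕` be a family of graphs of bounded order, none of them `h`-colourable (`h ≥ 1` arbitrary), and
one of them with a partition of its vertex set into `h` classes of which at most `2 ^ ⌊log₂ h⌋` (more
than half of the classes) contain edges, each class inducing a subgraph of a hypercube (for
example a forest). Then containing a member of `𝓕` is an evasive property of graphs on `n` vertices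
for ALL large `n`. In particular (`critical_edge`): if `F` is a graph with an edge `e` such that
`F - e` is `h`-colourable and `F` is not (a colour-critical edge), then containing `F` is evasive for
all large `n`.

The starting file `CubicalPartition` is the case in which `h` is a power of 2 or of 3 (then all `h`
classes may contain edges); its blocks, groups and its ring of types are used here.

Proof. Let `h` be maximal, `g = 2 ^ I ≤ h < 2 g`, `h' = h - g`. In the ring of types of blocks modulo 2
let `x` be the field block (independent set), `z` the prime block and `κ m` the complete `m`-partite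
block; the difference operator `1 - Frobenius` doubles blocks, so that `κ (2 ^ i)` is a polynomial in
`x`, and `v = (1 - Frobenius) ^ I z` is the sum of the joins `K_g[D]` over the invariant circulant
graphs `D`, with `v ^ 2 = v`. Small blocks can be folded into a large one: if the block `t` can absorb
all others, then the pairs of blocks that are not both joined to `t` are irrelevant, and they cancel in
the signed count. So for decreasing exponents `i₁ > … > i_r` the functional takes on
`κ (2 ^ i₁) ⋯ κ (2 ^ i_r) t` the value `[κ (m - 2 ^ i_r) ∨ t] + [κ m ∨ t]`, `m = 2 ^ i₁ + … + 2 ^ i_r`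
(`Lb_list`; here `[s]` is 1 if no member fits into `s`), and a telescoping sum gives a polynomial `y` in
`x` whose value on `y t` is `[κ h' ∨ t]` for all `t = K_g[D]`. For `D` without edges this is 1, since
no member is `h`-colourable; for all other `D` it is 0, since `D` contains large cubes. So the value on
`y v` is 1, while it would be 0 for suitable numbers of blocks if the property were not evasive.
-/

namespace Pool.Agent.Results.MP_257582_lc.IndependentCubical

open Pool.Agent.U291.KE

/-- Every decision strategy `σ` (the next pair to be queried depends only on the answers to the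
queries made so far) needs all `n.choose 2` queries: there are two graphs that agree on the first
`n.choose 2 - 1` queried pairs, one with and one without `P`. -/
def Evasive {n : ℕ} (P : SimpleGraph (Fin n) → Prop) : Prop :=
  ∀ σ : Finset (Sym2 (Fin n)) → SimpleGraph (Fin n) → Sym2 (Fin n),
    (∀ (Q : Finset (Sym2 (Fin n))) (G H : SimpleGraph (Fin n)),
        (∀ e ∈ Q, (e ∈ G.edgeSet ↔ e ∈ H.edgeSet)) → σ Q G = σ Q H) →
    ∃ G H : SimpleGraph (Fin n),
      (∀ e ∈ (fun Q : Finset (Sym2 (Fin n)) => insert (σ Q G) Q)^[n.choose 2 - 1]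
            (∅ : Finset (Sym2 (Fin n))),
          (e ∈ G.edgeSet ↔ e ∈ H.edgeSet)) ∧ P G ∧ ¬ P H

/-- The vertex set of `G` splits into `h` classes (the fibres of `κ`), at most `g` of which (those
with index in `A`) contain edges, and each class induces a graph isomorphic to a subgraph of a
hypercube (vertices: the subsets of an `N`-element set; edges: the pairs of subsets that differ in
exactly one element). -/
def MixedSplit {k : ℕ} (h g : ℕ) (G : SimpleGraph (Fin k)) : Prop :=
  ∃ (A : Finset (Fin h)) (N : ℕ) (κ : Fin k → Fin h) (φ : Fin k → Finset (Fin N)),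
    A.card ≤ g ∧ (∀ x y, κ x = κ y → φ x = φ y → x = y) ∧
    ∀ x y, κ x = κ y → G.Adj x y → κ x ∈ A ∧ (symmDiff (φ x) (φ y)).card = 1

theorem ms_of_mixed {k h g : ℕ} (hg : g ≤ h) {G : SimpleGraph (Fin k)} (hG : MixedSplit h g G) :
    ∃ N, MS h g N G := by
  classical
  obtain ⟨A, N, κ, φ, hA, h1, h2⟩ := hG
  -- a permutation of the classes which moves `A` to the first places
  obtain ⟨π, hπ⟩ : ∃ π : Equiv.Perm (Fin h), ∀ i ∈ A, ((π i : Fin h) : ℕ) < g := by
    let B : Finset (Fin h) := Finset.univ.filter (fun i => (i : ℕ) < g)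
    have hB : B.card = g := by
      have h3 : B = (Finset.univ : Finset (Fin g)).map (Fin.castLEEmb hg) := by
        ext i
        simp only [B, Finset.mem_filter, Finset.mem_univ, true_and, Finset.mem_map,
          Fin.castLEEmb_apply]
        constructor
        · intro hi
          exact ⟨⟨i, hi⟩, by ext; rfl⟩
        · rintro ⟨j, rfl⟩
          exact j.2
      rw [h3, Finset.card_map, Finset.card_univ, Fintype.card_fin]
    obtain ⟨B', hB', hcard⟩ := Finset.exists_subset_card_eq (s := B) (n := A.card)
      (by rw [hB]; exact hA)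
    let e0 : {x // x ∈ A} ≃ {x // x ∈ B'} := Finset.equivOfCardEq hcard.symm
    refine ⟨e0.extendSubtype, fun i hi => ?_⟩
    have h4 := e0.extendSubtype_mem i hi
    have h5 := hB' h4
    simpa [B] using h5
  refine ⟨N, fun x => π (κ x), φ, fun x y h => h1 x y (π.injective h), fun x y h hxy => ?_⟩
  obtain ⟨h3, h4⟩ := h2 x y (π.injective h) hxy
  exact ⟨hπ _ h3, h4⟩

/-- **Containing a member of `𝓕` is evasive for all large `n`.** -/
theorem result (𝓕 : Set (Σ k : ℕ, SimpleGraph (Fin k))) (B : ℕ) (hB : ∀ F ∈ 𝓕, F.1 ≤ B)
    (h : ℕ) (hh : 1 ≤ h) (hcol : ∀ F ∈ 𝓕, ¬ F.2.Colorable h)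
    (hsplit : ∃ F ∈ 𝓕, MixedSplit h (2 ^ Nat.log 2 h) F.2) :
    ∃ n₀ : ℕ, ∀ n : ℕ, n₀ ≤ n →
      Evasive (fun G : SimpleGraph (Fin n) => ∃ F ∈ 𝓕, F.2.IsContained G) := by
  obtain ⟨F, hF, hm⟩ := hsplit
  have hle : 2 ^ Nat.log 2 h ≤ h := Nat.pow_log_le_self 2 (by omega)
  obtain ⟨N, hms⟩ := ms_of_mixed hle hm
  exact mixed_main (Nat.log 2 h) N B h 𝓕 hB hcol hle ⟨F, hF, hms⟩

/-- A graph with an edge whose deletion leaves an `h`-colourable graph has such a partition. -/
theorem mixed_of_critical {k h : ℕ} (G : SimpleGraph (Fin k)) (e : Sym2 (Fin k))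
    (he : (G.deleteEdges {e}).Colorable h) (g : ℕ) (hg : 1 ≤ g) : MixedSplit h g G := by
  classical
  obtain ⟨C⟩ := he
  induction e using Sym2.ind with
  | _ a b =>
  have hval : ∀ x y, G.Adj x y → C x = C y → s(x, y) = s(a, b) := by
    intro x y hxy hC
    by_contra hne
    exact C.valid ((SimpleGraph.deleteEdges_adj).2 ⟨hxy, by simpa using hne⟩) hC
  let φ : Fin k → Finset (Fin (k + 1)) := fun x =>
    if x = a then {} else if x = b then {0} else {0, x.succ}
  refine ⟨{C a}, k + 1, C, φ, by simpa using hg, ?_, ?_⟩
  · intro x y _ hφ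
    simp only [φ] at hφ
    by_cases hx : x = a
    · by_cases hy : y = a
      · rw [hx, hy]
      · rw [if_pos hx, if_neg hy] at hφ
        by_cases hy2 : y = b
        · rw [if_pos hy2] at hφ
          exact absurd hφ.symm (Finset.singleton_ne_empty _)
        · rw [if_neg hy2] at hφ
          exact absurd hφ.symm (Finset.insert_ne_empty _ _)
    · rw [if_neg hx] at hφ
      by_cases hy : y = a
      · rw [if_pos hy] at hφ
        by_cases hx2 : x = b
        · rw [if_pos hx2] at hφ
          exact absurd hφ (Finset.singleton_ne_empty _)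
        · rw [if_neg hx2] at hφ
          exact absurd hφ (Finset.insert_ne_empty _ _)
      · rw [if_neg hy] at hφ
        by_cases hx2 : x = b
        · by_cases hy2 : y = b
          · rw [hx2, hy2]
          · rw [if_pos hx2, if_neg hy2] at hφ
            have : y.succ ∈ ({0} : Finset (Fin (k + 1))) := by rw [hφ]; simp
            simp at this
        · rw [if_neg hx2] at hφ
          by_cases hy2 : y = b
          · rw [if_pos hy2] at hφ
            have : x.succ ∈ ({0} : Finset (Fin (k + 1))) := by rw [← hφ]; simp
            simp at this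
          · rw [if_neg hy2] at hφ
            have : x.succ ∈ ({0, y.succ} : Finset (Fin (k + 1))) := by rw [← hφ]; simp
            simpa using this
  · intro x y hC hxy
    have h1 := hval x y hxy hC
    have hab : a ≠ b := by
      rintro rfl
      rcases Sym2.eq_iff.1 h1 with ⟨h2, h3⟩ | ⟨h2, h3⟩ <;> exact hxy.ne (h2.trans h3.symm)
    have hφa : φ a = ∅ := by simp [φ]
    have hφb : φ b = {0} := by simp [φ, hab.symm]
    rcases Sym2.eq_iff.1 h1 with ⟨rfl, rfl⟩ | ⟨rfl, rfl⟩
    · refine ⟨by simp, ?_⟩
      rw [hφa, hφb]
      have h4 : symmDiff (∅ : Finset (Fin (k + 1))) {0} = {0} := bot_symmDiff _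
      rw [h4, Finset.card_singleton]
    · refine ⟨by simp [hC], ?_⟩
      rw [hφa, hφb]
      have h4 : symmDiff ({0} : Finset (Fin (k + 1))) ∅ = {0} := symmDiff_bot _
      rw [h4, Finset.card_singleton]

/-- Graphs with a colour-critical edge. -/
theorem critical_edge (k h : ℕ) (F : SimpleGraph (Fin k)) (hF : ¬ F.Colorable h)
    (e : Sym2 (Fin k)) (he : (F.deleteEdges {e}).Colorable h) (hh : 1 ≤ h) :
    ∃ n₀ : ℕ, ∀ n : ℕ, n₀ ≤ n →
      Evasive (fun G : SimpleGraph (Fin n) => F.IsContained G) := by
  obtain ⟨n₀, hn₀⟩ := result {⟨k, F⟩} k (by rintro _ rfl; exact le_rfl) h hh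
    (by rintro _ rfl; exact hF)
    ⟨⟨k, F⟩, rfl, mixed_of_critical F e he _ Nat.one_le_two_pow⟩
  refine ⟨n₀, fun n hn => ?_⟩
  have h1 : (fun G : SimpleGraph (Fin n) => F.IsContained G) =
      (fun G : SimpleGraph (Fin n) => ∃ F' ∈ ({⟨k, F⟩} : Set (Σ k : ℕ, SimpleGraph (Fin k))),
        F'.2.IsContained G) := by
    funext G
    apply propext
    constructor
    · intro h
      exact ⟨⟨k, F⟩, rfl, h⟩
    · rintro ⟨_, rfl, h⟩
      exact h
  rw [h1]
  exact hn₀ n hn

end Pool.Agent.Results.MP_257582_lc.IndependentCubical
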