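import Pool.Agent.U96.EV.Main

set_option autoImplicit false

/-!
# Between matchings and fractional matchings every property is evasive (MP_257582_lc)

Let `1 ≤ k ≤ n / 2` and let `P` be a monotone isomorphism-invariant property of graphs on `n` vertices
that contains all graphs with `k` disjoint edges, and in all members `G` of which at most
`|U| + n - 2 k + 1` vertices become isolated by the removal of a set `U` of vertices (this holds if
`G` has a fractional matching of size larger than `k - 1`, `frac_upper`, and by linear programming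
duality it is equivalent to it). Then `P` is evasive. No condition on the arithmetic of `n`.

Proof. Let `d = n - 2 k` and let `q ≤ 2 d + 2` be the smallest power of two with `q ≥ d + 2`. The
vertex set is cut into blocks of size `q`, elementary abelian `2`-groups, and one cyclic group of
order `b`, `d + 2 ≤ b ≤ d + q`. The group of all translations is an extension of a `2`-group by a
cyclic group. If `P` is not evasive, then the signed sum of its values over the invariant graphs
vanishes (`relation`). An invariant graph gives a graph with loops on the blocks (a block has a loop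
if its connection set is not empty). `P` holds for it iff the looped graph has Hall's property: every
independent set `X` without loops has neighbours of total capacity at least `|X|`; here the cyclic
block has capacity 2 if `2 q ≤ b + d` and capacity 1 otherwise, and all other blocks have capacity 1
(`member1`, `member2`, `nonmember`). The signed number of looped graphs with Hall's property is
`1` or `-1` (`key`): if one vertex is split off, the remaining terms cancel by toggling a loop at one of
its neighbours, because tight sets can be uncrossed.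
-/

namespace Pool.Agent.Results.MP_257582_lc.MatchingSandwich

open Pool.Agent.U96.EV

/-- Every decision strategy `σ` (the next pair to be queried depends only on the answers to the
queries made so far) needs all `n.choose 2` queries: there are two graphs that agree on the first
`n.choose 2 - 1` queried pairs, one with and one without `P`. -/
def Evasive {n : ℕ} (P : SimpleGraph (Fin n) → Prop) : Prop :=
  ∀ σ : Finset (Sym2 (Fin n)) → SimpleGraph (Fin n) → Sym2 (Fin n),
    (∀ (Q : Finset (Sym2 (Fin n))) (G H : SimpleGraph (Fin n)),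
        (∀ e ∈ Q, (e ∈ G.edgeSet ↔ e ∈ H.edgeSet)) → σ Q G = σ Q H) →
    ∃ G H : SimpleGraph (Fin n),
      (∀ e ∈ (fun Q : Finset (Sym2 (Fin n)) => insert (σ Q G) Q)^[n.choose 2 - 1]
            (∅ : Finset (Sym2 (Fin n))),
          (e ∈ G.edgeSet ↔ e ∈ H.edgeSet)) ∧ P G ∧ ¬ P H

theorem evasive_of {n : ℕ} (P : SimpleGraph (Fin n) → Prop)
    (hmono : ∀ G H : SimpleGraph (Fin n), G ≤ H → P G → P H)
    (hiso : ∀ (σ : Fin n ≃ Fin n) (G : SimpleGraph (Fin n)), P G → P (G.map σ.toEmbedding))
    (h : ¬ Pool.Agent.H119R2.Kp.GP n (n.choose 2 - 1) P) : Evasive P := by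
  intro σ hσ
  by_contra hcon
  refine h ⟨hmono, hiso, Pool.Agent.H119R2.Kp.dec_of_strategy _ P σ hσ fun G H hGH hPG => ?_⟩
  by_contra hPH
  exact hcon ⟨G, H, hGH, hPG, hPH⟩

/-- a fractional matching `w` of size larger than `k - 1` implies the condition on isolated
vertices -/
theorem frac_upper {n k : ℕ} (hk : 2 * k ≤ n) (G : SimpleGraph (Fin n)) (w : Fin n → Fin n → ℝ)
    (hw : ∀ i j, 0 ≤ w i j) (hs : ∀ i j, w i j = w j i) (hG : ∀ i j, ¬ G.Adj i j → w i j = 0)
    (h1 : ∀ i, ∑ j, w i j ≤ 1) (ht : (k : ℝ) - 1 < (∑ i, ∑ j, w i j) / 2) (U : Set (Fin n)) :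
    {v | v ∉ U ∧ ∀ u, G.Adj v u → u ∈ U}.ncard ≤ U.ncard + (n - 2 * k + 1) := by
  classical
  set S := {v | v ∉ U ∧ ∀ u, G.Adj v u → u ∈ U} with hS
  have e1 : S.ncard = S.toFinset.card := Set.ncard_eq_toFinset_card' S
  have e2 : U.ncard = U.toFinset.card := Set.ncard_eq_toFinset_card' U
  have a1 : ∑ i ∈ S.toFinset, ∑ j, w i j ≤ (U.toFinset.card : ℝ) := by
    have b1 : ∀ i ∈ S.toFinset, ∑ j, w i j = ∑ j ∈ U.toFinset, w i j := by
      intro i hi
      rw [Set.mem_toFinset] at hi
      symm
      refine Finset.sum_subset (Finset.subset_univ _) fun j _ hj => hG i j fun h => hj ?_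
      rw [Set.mem_toFinset]
      exact hi.2 j h
    calc ∑ i ∈ S.toFinset, ∑ j, w i j = ∑ i ∈ S.toFinset, ∑ j ∈ U.toFinset, w i j :=
          Finset.sum_congr rfl b1
      _ ≤ ∑ i, ∑ j ∈ U.toFinset, w i j :=
          Finset.sum_le_sum_of_subset_of_nonneg (Finset.subset_univ _)
            fun i _ _ => Finset.sum_nonneg fun j _ => hw i j
      _ = ∑ j ∈ U.toFinset, ∑ i, w j i := by
          rw [Finset.sum_comm]
          exact Finset.sum_congr rfl fun j _ => Finset.sum_congr rfl fun i _ => hs i j
      _ ≤ ∑ j ∈ U.toFinset, (1 : ℝ) := Finset.sum_le_sum fun j _ => h1 j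
      _ = (U.toFinset.card : ℝ) := by simp
  have a2 : ∑ i ∈ S.toFinsetᶜ, ∑ j, w i j ≤ (n : ℝ) - S.toFinset.card := by
    calc ∑ i ∈ S.toFinsetᶜ, ∑ j, w i j ≤ ∑ i ∈ S.toFinsetᶜ, (1 : ℝ) :=
          Finset.sum_le_sum fun j _ => h1 j
      _ = (n : ℝ) - S.toFinset.card := by
          rw [Finset.sum_const, nsmul_eq_mul, mul_one, Finset.card_compl, Fintype.card_fin,
            Nat.cast_sub]
          simpa using Finset.card_le_univ S.toFinset
  have a3 := Finset.sum_add_sum_compl S.toFinset fun i => ∑ j, w i j
  have a4 : (S.toFinset.card : ℝ) < ((U.toFinset.card + (n - 2 * k + 2) : ℕ) : ℝ) := by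
    push_cast [Nat.cast_sub hk]
    linarith
  have a5 : S.toFinset.card < U.toFinset.card + (n - 2 * k + 2) := by exact_mod_cast a4
  omega

/-- **Between matchings and fractional matchings every property is evasive.** -/
theorem result : ∀ n k : ℕ, 1 ≤ k → 2 * k ≤ n → ∀ P : SimpleGraph (Fin n) → Prop,
    (∀ G H : SimpleGraph (Fin n), G ≤ H → P G → P H) →
    (∀ (σ : Fin n ≃ Fin n) (G : SimpleGraph (Fin n)), P G → P (G.map σ.toEmbedding)) →
    (∀ G : SimpleGraph (Fin n), (∃ f : Fin k × Bool → Fin n, Function.Injective f ∧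
      ∀ i, G.Adj (f (i, true)) (f (i, false))) → P G) →
    (∀ G : SimpleGraph (Fin n), P G → ∀ U : Set (Fin n),
      {v | v ∉ U ∧ ∀ u, G.Adj v u → u ∈ U}.ncard ≤ U.ncard + (n - 2 * k + 1)) →
    Evasive P := by
  intro n k hk hkn P hmono hiso hlow hup
  refine evasive_of P hmono hiso fun hGP => ?_
  have hq : n.choose 2 - 1 < n.choose 2 := by
    have : 0 < n.choose 2 := Nat.choose_pos (by omega)
    omega
  obtain ⟨a, b, s, c, h1, h2, h3, h4, h5, h6, h7, h8, h9, h10⟩ :=
    sizes n (n - 2 * k) (by omega) (by omega)
  exact main hGP hq a b s (n - 2 * k) (n - 2 * k + 1) c h1 h2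
    (fun G hG => hlow G (hG.edges (by omega))) hup h3 h4 h5 h6 h7 h8 h9 h10

end Pool.Agent.Results.MP_257582_lc.MatchingSandwich
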